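import Pool.Agent.helper44.EX.Spec

/-!
# Project ex: module DEN (density points)
-/

set_option autoImplicit false

open Complex Metric Set Filter Topology MeasureTheory Pool.Agent.helper98.ILF

noncomputable section

namespace EX

theorem DEN_intOn (μ : ℂ → ℂ) (hμ : Measurable μ) (hb : ∀ z, ‖μ z‖ ≤ 1) (a : ℂ) (s : Set ℂ)
    (hs : volume s ≠ ⊤) : IntegrableOn (fun z => ‖μ z - a‖) s volume := by
  have hfin : IsFiniteMeasure (volume.restrict s) :=
    ⟨by rw [Measure.restrict_apply_univ]; exact lt_top_iff_ne_top.2 hs⟩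
  refine Integrable.of_bound ((hμ.sub_const a).norm.aestronglyMeasurable) (1 + ‖a‖) ?_
  refine Eventually.of_forall fun z => ?_
  rw [Real.norm_eq_abs, abs_of_nonneg (norm_nonneg _)]
  exact (norm_sub_le _ _).trans (by linarith [hb z])

theorem DEN_vol (p : ℂ) (s : ℝ) (hs : 0 < s) :
    (volume : Measure ℂ).real (closedBall p s) = s ^ 2 * Real.pi := by
  rw [Measure.real, Complex.volume_closedBall, ENNReal.toReal_mul, ENNReal.toReal_pow,
    ENNReal.toReal_ofReal hs.le]
  rfl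

theorem DEN_volne (p : ℂ) (s : ℝ) : (volume : Measure ℂ) (closedBall p s) ≠ ⊤ :=
  measure_closedBall_lt_top.ne

theorem DEN : DEN_stmt := by
  intro μ hμ hb
  have hloc : LocallyIntegrable μ (volume : Measure ℂ) := by
    rw [locallyIntegrable_iff]
    intro k hk
    have hfin : IsFiniteMeasure ((volume : Measure ℂ).restrict k) :=
      ⟨by rw [Measure.restrict_apply_univ]; exact hk.measure_lt_top⟩
    exact Integrable.of_bound hμ.aestronglyMeasurable 1 (Eventually.of_forall fun z => hb z)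
  have h1 : ∀ n : ℕ, ∀ᵐ x : ℂ, ∀ ε : ℝ, 0 < ε → ∃ δ > (0 : ℝ), ∀ (p : ℂ) (s : ℝ), 0 < s →
      s < δ → ‖x - p‖ ≤ (n : ℝ) * s → ∫ z in ball p s, ‖μ z - μ x‖ ≤ ε * s ^ 2 := by
    intro n
    filter_upwards [IsUnifLocDoublingMeasure.ae_tendsto_average_norm_sub (volume : Measure ℂ) hloc (n : ℝ)] with x hx
    intro ε hε
    have hx1 := @hx (ℂ × ℝ)
      ((comap Prod.snd (𝓝[>] (0 : ℝ))) ⊓ 𝓟 {q : ℂ × ℝ | x ∈ closedBall q.1 ((n : ℝ) * q.2)})
      Prod.fst Prod.snd (tendsto_comap.mono_left inf_le_left)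
      (mem_inf_of_right (mem_principal_self _))
    have hpi := Real.pi_pos
    have h2 := hx1.eventually (gt_mem_nhds (show (0 : ℝ) < ε / Real.pi by positivity))
    rw [eventually_inf_principal, eventually_comap] at h2
    obtain ⟨δ, hδ, hsub⟩ := (mem_nhdsGT_iff_exists_Ioo_subset).1 h2
    refine ⟨δ, hδ, fun p s hs hsδ hxp => ?_⟩
    have h3 := hsub (show s ∈ Ioo (0 : ℝ) δ from ⟨hs, hsδ⟩)
    have h4 := h3 (p, s) rfl (by
      show x ∈ closedBall p ((n : ℝ) * s)
      rw [mem_closedBall, dist_eq_norm]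
      exact hxp)
    have h5 : ⨍ y in closedBall p s, ‖μ y - μ x‖ < ε / Real.pi := h4
    rw [setAverage_eq, DEN_vol p s hs, smul_eq_mul] at h5
    have h6 : ∫ z in ball p s, ‖μ z - μ x‖ ≤ ∫ z in closedBall p s, ‖μ z - μ x‖ := by
      refine setIntegral_mono_set (DEN_intOn μ hμ hb _ _ (DEN_volne p s)) ?_ ?_
      · exact Eventually.of_forall fun z => norm_nonneg _
      · exact HasSubset.Subset.eventuallyLE ball_subset_closedBall
    refine h6.trans ?_
    have h7 : 0 < s ^ 2 * Real.pi := by positivity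
    have h8 : ∫ z in closedBall p s, ‖μ z - μ x‖ < ε / Real.pi * (s ^ 2 * Real.pi) := by
      rw [inv_mul_lt_iff₀ h7] at h5
      linarith
    have h9 : ε / Real.pi * (s ^ 2 * Real.pi) = ε * s ^ 2 := by
      field_simp
    linarith
  rw [← ae_all_iff] at h1
  filter_upwards [h1] with x hx K ε hε
  obtain ⟨n, hn⟩ := exists_nat_ge K
  obtain ⟨δ, hδ, h⟩ := hx n ε hε
  refine ⟨δ, hδ, fun p s hs hsδ hxp => h p s hs hsδ (hxp.trans ?_)⟩
  exact mul_le_mul_of_nonneg_right hn hs.le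

end EX
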